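import Mathlib

set_option autoImplicit false

namespace Pool.Agent.H70.LittleLip

open Filter Topology TopologicalSpace

/-- A hypercyclicity criterion: a dense set of vectors with orbit tending to zero, and a dense set
of vectors which are approximately `n`-th images of small vectors, for all large `n`. -/
theorem exists_dense_orbit {Y : Type} [NormedAddCommGroup Y] [NormedSpace ℂ Y] [CompleteSpace Y]
    [SeparableSpace Y] (B : Y →L[ℂ] Y)
    (h1 : Dense {F : Y | Tendsto (fun n : ℕ => (B ^ n) F) atTop (𝓝 0)})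
    (h2 : Dense {G : Y | ∀ ε : ℝ, 0 < ε → ∀ᶠ n : ℕ in atTop, ∃ U : Y, ‖U‖ < ε ∧
      ‖(B ^ n) U - G‖ < ε}) :
    ∃ F : Y, ∀ G : Y, ∀ ε : ℝ, 0 < ε → ∃ n : ℕ, ‖(B ^ n) F - G‖ < ε := by
  classical
  haveI : Nonempty Y := ⟨0⟩
  let W : ℕ × ℕ → Set Y := fun p =>
    ⋃ n : ℕ, {F : Y | ‖(B ^ n) F - denseSeq Y p.1‖ < 1 / ((p.2 : ℝ) + 1)}
  have hopen : ∀ p, IsOpen (W p) := by
    intro p
    refine isOpen_iUnion fun n => ?_
    exact isOpen_lt (((B ^ n).continuous.sub continuous_const).norm) continuous_const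
  have hdense : ∀ p, Dense (W p) := by
    intro p
    rw [Metric.dense_iff]
    intro F0 δ hδ
    have hm : (0 : ℝ) < 1 / ((p.2 : ℝ) + 1) := by positivity
    obtain ⟨F1, hF1, hF1'⟩ := Metric.dense_iff.1 h1 F0 (δ / 2) (by positivity)
    obtain ⟨G, hG, hG'⟩ := Metric.dense_iff.1 h2 (denseSeq Y p.1) (1 / ((p.2 : ℝ) + 1) / 3)
      (by positivity)
    set η : ℝ := min (δ / 2) (1 / ((p.2 : ℝ) + 1) / 3) with hη
    have hηpos : 0 < η := lt_min (by positivity) (by positivity)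
    have e1 : ∀ᶠ n : ℕ in atTop, ‖(B ^ n) F1‖ < η := by
      have := (Metric.tendsto_nhds.1 (show Tendsto (fun n : ℕ => (B ^ n) F1) atTop (𝓝 0) from hF1'))
        η hηpos
      simpa [dist_zero_right] using this
    obtain ⟨n, hn1, U, hU, hn2⟩ := (e1.and (hG' η hηpos)).exists
    refine ⟨F1 + U, ?_, ?_⟩
    · rw [Metric.mem_ball] at hF1 ⊢
      calc dist (F1 + U) F0 ≤ dist (F1 + U) F1 + dist F1 F0 := dist_triangle _ _ _
        _ < δ / 2 + δ / 2 := by
          apply add_lt_add _ hF1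
          rw [dist_eq_norm, add_sub_cancel_left]
          exact hU.trans_le (min_le_left _ _)
        _ = δ := by ring
    · refine Set.mem_iUnion.2 ⟨n, ?_⟩
      show ‖(B ^ n) (F1 + U) - denseSeq Y p.1‖ < 1 / ((p.2 : ℝ) + 1)
      have hdec : (B ^ n) (F1 + U) - denseSeq Y p.1 =
          (B ^ n) F1 + ((B ^ n) U - G) + (G - denseSeq Y p.1) := by
        rw [map_add]; abel
      rw [Metric.mem_ball, dist_eq_norm] at hG
      rw [hdec]
      calc ‖(B ^ n) F1 + ((B ^ n) U - G) + (G - denseSeq Y p.1)‖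
          ≤ ‖(B ^ n) F1‖ + ‖(B ^ n) U - G‖ + ‖G - denseSeq Y p.1‖ := norm_add₃_le
        _ < 1 / ((p.2 : ℝ) + 1) / 3 + 1 / ((p.2 : ℝ) + 1) / 3 + 1 / ((p.2 : ℝ) + 1) / 3 := by
          apply add_lt_add (add_lt_add _ _) hG
          · exact hn1.trans_le (min_le_right _ _)
          · exact hn2.trans_le (min_le_right _ _)
        _ = 1 / ((p.2 : ℝ) + 1) := by ring
  have hD : Dense (⋂ p, W p) := dense_iInter_of_isOpen hopen hdense
  obtain ⟨F, hF⟩ := hD.nonempty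
  refine ⟨F, fun G ε hε => ?_⟩
  obtain ⟨m, hm⟩ := exists_nat_one_div_lt (half_pos hε)
  obtain ⟨k, hk⟩ := (denseRange_denseSeq Y).exists_dist_lt G (half_pos hε)
  have hFk := Set.mem_iInter.1 hF (k, m)
  obtain ⟨n, hn⟩ := Set.mem_iUnion.1 hFk
  refine ⟨n, ?_⟩
  have hn' : ‖(B ^ n) F - denseSeq Y k‖ < 1 / ((m : ℝ) + 1) := hn
  rw [dist_comm, dist_eq_norm] at hk
  calc ‖(B ^ n) F - G‖ = ‖((B ^ n) F - denseSeq Y k) + (denseSeq Y k - G)‖ := by congr 1; abel
    _ ≤ ‖(B ^ n) F - denseSeq Y k‖ + ‖denseSeq Y k - G‖ := norm_add_le _ _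
    _ < ε / 2 + ε / 2 := add_lt_add (hn'.trans hm) hk
    _ = ε := by ring

end Pool.Agent.H70.LittleLip
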