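import Mathlib

set_option autoImplicit false

namespace Pool.Agent.H70.LittleLip

/-- `(G, o)` is a rooted tree in the sense of the problem: a connected graph without cycles,
locally finite, in which only the root `o` may have degree one, and infinite. -/
structure IsRootedTree {V : Type} (G : SimpleGraph V) (o : V) : Prop where
  isTree : G.IsTree
  locallyFinite : ∀ v : V, (G.neighborSet v).Finite
  two_le_degree : ∀ v : V, v ≠ o → 2 ≤ (G.neighborSet v).ncard
  infinite : Infinite V

/-- `IsParent G o w v`: the vertex `w` is the parent of `v`, that is, the neighbour of `v`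
which is one step closer to the root `o`. -/
def IsParent {V : Type} (G : SimpleGraph V) (o w v : V) : Prop :=
  G.Adj w v ∧ G.dist o v = G.dist o w + 1

/-- The little Lipschitz space of the rooted tree `(G, o)`: for every `ε > 0` only finitely many
vertices `v` with parent `w` have `|f v - f w| ≥ ε`. -/
def littleLip {V : Type} (G : SimpleGraph V) (o : V) : Set (V → ℂ) :=
  {f | ∀ ε : ℝ, 0 < ε → {v : V | ∃ w, IsParent G o w v ∧ ε ≤ ‖f v - f w‖}.Finite}

/-- The norm `max (|f o|, sup |f v - f w|)`, the supremum over all pairs (parent `w`, vertex `v`). -/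
noncomputable def lipNorm {V : Type} (G : SimpleGraph V) (o : V) (f : V → ℂ) : ℝ :=
  max ‖f o‖ (⨆ p : {p : V × V // IsParent G o p.1 p.2}, ‖f p.1.2 - f p.1.1‖)

/-- `f ↦ f ∘ φ` maps the little Lipschitz space boundedly into itself. -/
def IsCompositionOperator {V : Type} (G : SimpleGraph V) (o : V) (φ : V → V) : Prop :=
  (∀ f ∈ littleLip G o, f ∘ φ ∈ littleLip G o) ∧
    ∃ C : ℝ, ∀ f ∈ littleLip G o, lipNorm G o (f ∘ φ) ≤ C * lipNorm G o f

/-- The operator `A` is hypercyclic on the little Lipschitz space: some `f` in the space has an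
orbit `{A^n f : n ≥ 0}` which is dense in the space for the norm `lipNorm`. -/
def IsHypercyclic {V : Type} (G : SimpleGraph V) (o : V) (A : (V → ℂ) → (V → ℂ)) : Prop :=
  ∃ f ∈ littleLip G o, ∀ g ∈ littleLip G o, ∀ ε : ℝ, 0 < ε →
    ∃ n : ℕ, lipNorm G o (A^[n] f - g) < ε

end Pool.Agent.H70.LittleLip
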