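import Mathlib
import Pool.Agent.H70.LittleLipDefs

set_option autoImplicit false

namespace Pool.Agent.H70.LittleLip

/-! ### The comb -/

/-- The parent function of the comb on `ℕ × ℕ`: teeth `{i} × ℕ`, spine `ℕ × {0}`, root `(0,0)`. -/
def par : ℕ × ℕ → ℕ × ℕ
  | (i, x + 1) => (i, x)
  | (i + 1, 0) => (i, 0)
  | (0, 0) => (0, 0)

@[simp] lemma par_succ (i x : ℕ) : par (i, x + 1) = (i, x) := by simp [par]
@[simp] lemma par_zero (i : ℕ) : par (i + 1, 0) = (i, 0) := rfl
@[simp] lemma par_root : par (0, 0) = (0, 0) := rfl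

/-- The depth of a vertex of the comb. -/
def depth (v : ℕ × ℕ) : ℕ := v.1 + v.2

lemma depth_par {v : ℕ × ℕ} (hv : v ≠ (0, 0)) : depth (par v) + 1 = depth v := by
  obtain ⟨i, x⟩ := v
  rcases x with _ | x
  · rcases i with _ | i
    · exact absurd rfl hv
    · simp [depth]
  · simp [depth]; omega

lemma par_ne {v : ℕ × ℕ} (hv : v ≠ (0, 0)) : par v ≠ v := by
  intro h
  have := depth_par hv
  rw [h] at this
  omega

lemma depth_par_le (v : ℕ × ℕ) : depth (par v) ≤ depth v := by
  by_cases hv : v = (0, 0)
  · subst hv; simp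
  · have := depth_par hv; omega

/-- The comb graph. -/
def comb : SimpleGraph (ℕ × ℕ) where
  Adj v w := v ≠ w ∧ (par v = w ∨ par w = v)
  symm := ⟨fun _ _ h => ⟨h.1.symm, h.2.symm⟩⟩
  loopless := ⟨fun _ h => h.1 rfl⟩

lemma comb_adj {v w : ℕ × ℕ} : comb.Adj v w ↔ v ≠ w ∧ (par v = w ∨ par w = v) := Iff.rfl

lemma comb_adj_par {v : ℕ × ℕ} (hv : v ≠ (0, 0)) : comb.Adj (par v) v :=
  ⟨par_ne hv, Or.inr rfl⟩

lemma exists_walk (v : ℕ × ℕ) : ∃ p : comb.Walk (0, 0) v, p.length = depth v := by
  induction' h : depth v using Nat.strong_induction_on with n ih generalizing v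
  by_cases hv : v = (0, 0)
  · subst hv
    exact ⟨SimpleGraph.Walk.nil, by simpa [depth] using h⟩
  · have hd := depth_par hv
    obtain ⟨p, hp⟩ := ih (depth (par v)) (by omega) (par v) rfl
    refine ⟨p.concat (comb_adj_par hv), ?_⟩
    rw [SimpleGraph.Walk.length_concat, hp]
    omega

lemma comb_connected : comb.Connected := by
  haveI : Nonempty (ℕ × ℕ) := ⟨(0, 0)⟩
  refine ⟨fun v w => ?_⟩
  obtain ⟨p, _⟩ := exists_walk v
  obtain ⟨q, _⟩ := exists_walk w
  exact ⟨p.reverse.append q⟩

lemma depth_iterate_par_le (k : ℕ) (v : ℕ × ℕ) : depth (par^[k] v) ≤ depth v := by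
  induction k generalizing v with
  | zero => simp
  | succ k ih =>
    rw [Function.iterate_succ_apply]
    exact (ih (par v)).trans (depth_par_le v)

lemma not_reachable {v w : ℕ × ℕ} (hne : v ≠ w) (hpar : par w = v) :
    ¬ (comb.deleteEdges {s(v, w)}).Reachable w v := by
  intro hr
  have key : ∀ (a b : ℕ × ℕ), (comb.deleteEdges {s(v, w)}).Walk a b →
      (∃ k, par^[k] a = w) → (∃ k, par^[k] b = w) := by
    intro a b p
    induction p with
    | nil => exact id
    | @cons a c b hadj p ih =>
      intro ha
      apply ih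
      obtain ⟨k, hk⟩ := ha
      rw [SimpleGraph.deleteEdges_adj] at hadj
      obtain ⟨hadj, hnot⟩ := hadj
      rcases hadj.2 with h | h
      · rcases k with _ | k
        · exfalso
          apply hnot
          simp only [Function.iterate_zero, id_eq] at hk
          subst hk
          simp only [Set.mem_singleton_iff]
          rw [← h, hpar, Sym2.eq_swap]
        · exact ⟨k, by rw [← h]; simpa [Function.iterate_succ_apply] using hk⟩
      · exact ⟨k + 1, by rw [Function.iterate_succ_apply, h]; exact hk⟩
  obtain ⟨p⟩ := hr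
  obtain ⟨k, hk⟩ := key w v p ⟨0, rfl⟩
  have h1 := depth_iterate_par_le k v
  rw [hk] at h1
  have hw : w ≠ (0, 0) := by
    rintro rfl
    apply hne
    rw [← hpar]; rfl
  have h2 := depth_par hw
  rw [hpar] at h2
  omega

lemma comb_isAcyclic : comb.IsAcyclic := by
  rw [SimpleGraph.isAcyclic_iff_forall_adj_isBridge]
  intro v w h
  rw [SimpleGraph.isBridge_iff]
  rcases h.2 with h' | h'
  · have := not_reachable (v := w) (w := v) h.1.symm h'
    rw [Sym2.eq_swap]
    exact this
  · have := not_reachable (v := v) (w := w) h.1 h'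
    exact fun hr => this hr.symm

lemma comb_isTree : comb.IsTree := ⟨comb_connected, comb_isAcyclic⟩

lemma depth_le_of_walk {a b : ℕ × ℕ} (p : comb.Walk a b) : depth b ≤ depth a + p.length := by
  induction p with
  | nil => simp
  | @cons a c b hadj p ih =>
    rw [SimpleGraph.Walk.length_cons]
    have : depth c ≤ depth a + 1 := by
      rcases hadj.2 with h | h
      · rw [← h]
        exact (depth_par_le a).trans (Nat.le_succ _)
      · have hc : c ≠ (0, 0) := by
          rintro rfl
          exact hadj.1 (by rw [← h]; rfl)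
        rw [← depth_par hc, h]
    omega

lemma comb_dist (v : ℕ × ℕ) : comb.dist (0, 0) v = depth v := by
  apply le_antisymm
  · obtain ⟨p, hp⟩ := exists_walk v
    rw [← hp]
    exact SimpleGraph.dist_le p
  · obtain ⟨p, hp⟩ := comb_connected.exists_walk_length_eq_dist (0, 0) v
    have := depth_le_of_walk p
    rw [← hp]
    simpa [depth] using this

lemma isParent_iff {v w : ℕ × ℕ} : IsParent comb (0, 0) w v ↔ v ≠ (0, 0) ∧ w = par v := by
  unfold IsParent
  rw [comb_dist, comb_dist]
  constructor
  · rintro ⟨h, hd⟩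
    have hv : v ≠ (0, 0) := by
      rintro rfl
      simp [depth] at hd
    refine ⟨hv, ?_⟩
    rcases h.2 with h' | h'
    · have := depth_par_le w
      rw [h'] at this
      omega
    · exact h'.symm
  · rintro ⟨hv, rfl⟩
    exact ⟨comb_adj_par hv, (depth_par hv).symm⟩

lemma neighborSet_subset (v : ℕ × ℕ) :
    comb.neighborSet v ⊆ {par v, (v.1, v.2 + 1), (v.1 + 1, v.2)} := by
  intro w hw
  rw [SimpleGraph.mem_neighborSet, comb_adj] at hw
  obtain ⟨hne, h | h⟩ := hw
  · simp [h]
  · obtain ⟨j, y⟩ := w
    rcases y with _ | y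
    · rcases j with _ | j
      · exact absurd h.symm hne
      · simp only [par_zero] at h
        subst h
        simp
    · simp only [par_succ] at h
      subst h
      simp

lemma comb_isRootedTree : IsRootedTree comb ((0, 0) : ℕ × ℕ) where
  isTree := comb_isTree
  locallyFinite v := Set.Finite.subset (by simp) (neighborSet_subset v)
  two_le_degree v hv := by
    have hfin : (comb.neighborSet v).Finite := Set.Finite.subset (by simp) (neighborSet_subset v)
    have h1 : par v ∈ comb.neighborSet v := (comb_adj_par hv).symm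
    have h2 : (v.1, v.2 + 1) ∈ comb.neighborSet v := by
      rw [SimpleGraph.mem_neighborSet, comb_adj]
      refine ⟨?_, Or.inr (by simp)⟩
      intro h
      have := congrArg Prod.snd h
      simp at this
    have hne : par v ≠ (v.1, v.2 + 1) := by
      intro h
      have := depth_par hv
      rw [h] at this
      simp [depth] at this
      omega
    rw [← Set.ncard_pair hne]
    exact Set.ncard_le_ncard (by
      intro x hx
      rcases hx with rfl | rfl
      · exact h1
      · exact h2) hfin
  infinite := inferInstance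

end Pool.Agent.H70.LittleLip
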