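import Mathlib
import Pool.Agent.H70.CombDefs
import Pool.Agent.H70.CombAbs

set_option autoImplicit false

namespace Pool.Agent.H70.LittleLip

open Filter Topology TopologicalSpace
open scoped ZeroAtInfty

/-- The difference operator of the comb. -/
def D (f : ℕ × ℕ → ℂ) (v : ℕ × ℕ) : ℂ := if v = (0, 0) then f v else f v - f (par v)

/-- The inverse of the difference operator of the comb. -/
def S (F : ℕ × ℕ → ℂ) (v : ℕ × ℕ) : ℂ :=
  ∑ a ∈ Finset.range (v.1 + 1), F (a, 0) + ∑ b ∈ Finset.range v.2, F (v.1, b + 1)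

lemma D_root (f : ℕ × ℕ → ℂ) : D f (0, 0) = f (0, 0) := by simp [D]

lemma D_of_ne (f : ℕ × ℕ → ℂ) {v : ℕ × ℕ} (hv : v ≠ (0, 0)) : D f v = f v - f (par v) := by
  simp [D, hv]

lemma D_tooth (f : ℕ × ℕ → ℂ) (i x : ℕ) : D f (i, x + 1) = f (i, x + 1) - f (i, x) := by
  simp [D]

lemma D_spine (f : ℕ × ℕ → ℂ) (i : ℕ) : D f (i + 1, 0) = f (i + 1, 0) - f (i, 0) := by
  simp [D]

lemma D_S (F : ℕ × ℕ → ℂ) : D (S F) = F := by
  funext v
  obtain ⟨i, x⟩ := v
  rcases x with _ | x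
  · rcases i with _ | i
    · simp [D, S]
    · rw [D_spine]
      simp [S, Finset.sum_range_succ]
  · rw [D_tooth]
    simp [S, Finset.sum_range_succ]

lemma D_sub (f g : ℕ × ℕ → ℂ) : D (f - g) = D f - D g := by
  funext v
  simp only [D, Pi.sub_apply]
  split_ifs <;> ring

/-- The self-map of the comb. -/
def phi : ℕ × ℕ → ℕ × ℕ
  | (0, x) => (0, 2 * x + 1)
  | (1, x) => (0, 2 * x)
  | (i + 2, x) => (i + 1, x)

@[simp] lemma phi_zero (x : ℕ) : phi (0, x) = (0, 2 * x + 1) := by simp [phi]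
@[simp] lemma phi_one (x : ℕ) : phi (1, x) = (0, 2 * x) := by simp [phi]
@[simp] lemma phi_add_two (i x : ℕ) : phi (i + 2, x) = (i + 1, x) := by simp [phi]

lemma phi_bijective : Function.Bijective phi := by
  constructor
  · rintro ⟨i, x⟩ ⟨j, y⟩ h
    rcases i with _ | _ | i <;> rcases j with _ | _ | j <;>
      simp only [phi_zero, phi_one, phi_add_two, Nat.zero_add, Prod.mk.injEq, true_and,
        Nat.add_right_cancel_iff, false_and, Nat.add_eq_zero_iff, one_ne_zero, and_false,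
        reduceCtorEq] at h ⊢ <;> omega
  · rintro ⟨i, x⟩
    rcases i with _ | i
    · rcases Nat.even_or_odd' x with ⟨y, rfl | rfl⟩
      · exact ⟨(1, y), by simp⟩
      · exact ⟨(0, y), by simp⟩
    · exact ⟨(i + 2, x), by simp⟩

/-- The operator on differences. -/
def Bf (c : ℂ) (F : ℕ × ℕ → ℂ) : ℕ × ℕ → ℂ
  | (0, 0) => c * (F (0, 0) + F (0, 1))
  | (0, x + 1) => c * (F (0, 2 * x + 2) + F (0, 2 * x + 3))
  | (1, 0) => c * (- F (0, 1))
  | (1, x + 1) => c * (F (0, 2 * x + 1) + F (0, 2 * x + 2))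
  | (i + 2, x) => c * F (i + 1, x)

lemma D_comp (c : ℂ) (f : ℕ × ℕ → ℂ) : D (c • (f ∘ phi)) = Bf c (D f) := by
  funext v
  obtain ⟨i, x⟩ := v
  rcases i with _ | _ | i
  · rcases x with _ | x
    · simp only [Bf, D_root, Pi.smul_apply, Function.comp, phi_zero, smul_eq_mul]
      have := D_tooth f 0 0
      simp only [Nat.zero_add, Nat.mul_zero] at this ⊢
      rw [this]; ring
    · simp only [Bf]
      rw [D_tooth]
      simp only [Pi.smul_apply, Function.comp, phi_zero, smul_eq_mul]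
      have e1 := D_tooth f 0 (2 * x + 1)
      have e2 := D_tooth f 0 (2 * x + 2)
      have e3 : 2 * (x + 1) + 1 = 2 * x + 3 := by ring
      rw [e3]
      simp only [Nat.add_assoc, Nat.reduceAdd] at e1 e2 ⊢
      rw [e1, e2]; ring
  · rcases x with _ | x
    · simp only [Bf, Nat.zero_add]
      have e0 := D_spine (c • (f ∘ phi)) 0
      simp only [Nat.zero_add] at e0
      rw [e0]
      simp only [Pi.smul_apply, Function.comp, phi_zero, phi_one, smul_eq_mul]
      have := D_tooth f 0 0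
      simp only [Nat.zero_add, Nat.mul_zero] at this ⊢
      rw [this]; ring
    · simp only [Bf, Nat.zero_add]
      rw [D_tooth]
      simp only [Pi.smul_apply, Function.comp, phi_one, smul_eq_mul]
      have e1 := D_tooth f 0 (2 * x)
      have e2 := D_tooth f 0 (2 * x + 1)
      have e3 : 2 * (x + 1) = 2 * x + 2 := by ring
      rw [e3]
      simp only [Nat.add_assoc, Nat.reduceAdd] at e1 e2 ⊢
      rw [e1, e2]; ring
  · rcases x with _ | x
    · simp only [Bf]
      have e0 : ((i + 1 + 1 : ℕ), (0 : ℕ)) = ((i + 1) + 1, 0) := rfl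
      rw [D_spine, D_spine]
      rcases i with _ | i
      · simp [Function.comp]; ring
      · simp [Function.comp]; ring
    · simp only [Bf]
      rw [D_tooth, D_tooth]
      simp [Function.comp]; ring

/-- Turn a function tending to zero along the cofinite filter into an element of `C₀`. -/
def mkY (F : ℕ × ℕ → ℂ) (hF : Tendsto F cofinite (𝓝 0)) : C₀(ℕ × ℕ, ℂ) :=
  ⟨⟨F, continuous_of_discreteTopology⟩, by
    rw [cocompact_eq_cofinite]; exact hF⟩

@[simp] lemma mkY_apply (F : ℕ × ℕ → ℂ) (hF : Tendsto F cofinite (𝓝 0)) (v : ℕ × ℕ) :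
    mkY F hF v = F v := rfl

lemma Y_tendsto (F : C₀(ℕ × ℕ, ℂ)) : Tendsto (F : ℕ × ℕ → ℂ) cofinite (𝓝 0) := by
  have := F.zero_at_infty'
  rw [cocompact_eq_cofinite] at this
  exact this

lemma norm_apply_le (F : C₀(ℕ × ℕ, ℂ)) (v : ℕ × ℕ) : ‖F v‖ ≤ ‖F‖ := by
  rw [← ZeroAtInftyContinuousMap.norm_toBCF_eq_norm]
  exact F.toBCF.norm_coe_le_norm v

lemma norm_le_of (F : C₀(ℕ × ℕ, ℂ)) {M : ℝ} (hM : 0 ≤ M) (h : ∀ v, ‖F v‖ ≤ M) : ‖F‖ ≤ M := by
  rw [← ZeroAtInftyContinuousMap.norm_toBCF_eq_norm]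
  exact (BoundedContinuousFunction.norm_le hM).2 h

lemma tendsto_cofinite_iff (F : ℕ × ℕ → ℂ) :
    Tendsto F cofinite (𝓝 0) ↔ ∀ ε : ℝ, 0 < ε → {v | ε ≤ ‖F v‖}.Finite := by
  rw [Metric.tendsto_nhds]
  refine forall₂_congr fun ε _ => ?_
  rw [Filter.eventually_cofinite]
  simp [dist_zero_right, not_lt]

lemma Bf_norm_le (c : ℂ) (F : ℕ × ℕ → ℂ) {M : ℝ} (hF : ∀ v, ‖F v‖ ≤ M) (v : ℕ × ℕ) :
    ‖Bf c F v‖ ≤ 2 * ‖c‖ * M := by
  have hM : 0 ≤ M := (norm_nonneg _).trans (hF (0, 0))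
  have two : ∀ a b : ℕ × ℕ, ‖c * (F a + F b)‖ ≤ 2 * ‖c‖ * M := by
    intro a b
    rw [norm_mul]
    have : ‖F a + F b‖ ≤ 2 * M := (norm_add_le _ _).trans (by linarith [hF a, hF b])
    nlinarith [norm_nonneg c, mul_le_mul_of_nonneg_left this (norm_nonneg c)]
  obtain ⟨i, x⟩ := v
  rcases i with _ | _ | i
  · rcases x with _ | x
    · exact two _ _
    · exact two _ _
  · rcases x with _ | x
    · simp only [Bf]
      rw [norm_mul, norm_neg]
      nlinarith [norm_nonneg c, mul_le_mul_of_nonneg_left (hF (0, 1)) (norm_nonneg c),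
        mul_nonneg (norm_nonneg c) hM]
    · exact two _ _
  · simp only [Bf]
    rw [norm_mul]
    nlinarith [norm_nonneg c, mul_le_mul_of_nonneg_left (hF (i + 1, x)) (norm_nonneg c),
        mul_nonneg (norm_nonneg c) hM]

end Pool.Agent.H70.LittleLip
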