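import Mathlib
import Pool.Agent.H70.CombOp

set_option autoImplicit false

namespace Pool.Agent.H70.LittleLip

open Filter Topology TopologicalSpace
open scoped ZeroAtInfty

lemma Bf_exists (c : ℂ) (F : ℕ × ℕ → ℂ) (v : ℕ × ℕ) :
    ∃ u : ℕ × ℕ, depth v ≤ depth u + 2 ∧ ‖Bf c F v‖ ≤ 2 * ‖c‖ * ‖F u‖ := by
  have two : ∀ a b : ℕ × ℕ, depth v ≤ depth a + 2 → depth v ≤ depth b + 2 →
      ∃ u : ℕ × ℕ, depth v ≤ depth u + 2 ∧ ‖c * (F a + F b)‖ ≤ 2 * ‖c‖ * ‖F u‖ := by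
    intro a b ha hb
    rcases le_total ‖F a‖ ‖F b‖ with h | h
    · refine ⟨b, hb, ?_⟩
      rw [norm_mul]
      have : ‖F a + F b‖ ≤ 2 * ‖F b‖ := (norm_add_le _ _).trans (by linarith)
      nlinarith [norm_nonneg c, mul_le_mul_of_nonneg_left this (norm_nonneg c)]
    · refine ⟨a, ha, ?_⟩
      rw [norm_mul]
      have : ‖F a + F b‖ ≤ 2 * ‖F a‖ := (norm_add_le _ _).trans (by linarith)
      nlinarith [norm_nonneg c, mul_le_mul_of_nonneg_left this (norm_nonneg c)]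
  obtain ⟨i, x⟩ := v
  rcases i with _ | _ | i
  · rcases x with _ | x
    · exact two _ _ (by simp [depth]) (by simp [depth])
    · exact two _ _ (by simp only [depth]; omega) (by simp only [depth]; omega)
  · rcases x with _ | x
    · refine ⟨(0, 1), by simp [depth], ?_⟩
      simp only [Bf]
      rw [norm_mul, norm_neg]
      nlinarith [norm_nonneg c, norm_nonneg (F (0, 1)),
        mul_nonneg (norm_nonneg c) (norm_nonneg (F (0, 1)))]
    · exact two _ _ (by simp only [depth]; omega) (by simp only [depth]; omega)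
  · refine ⟨(i + 1, x), by simp only [depth]; omega, ?_⟩
    simp only [Bf]
    rw [norm_mul]
    nlinarith [norm_nonneg c, norm_nonneg (F (i + 1, x)),
        mul_nonneg (norm_nonneg c) (norm_nonneg (F (i + 1, x)))]

lemma finite_depth_le (M : ℕ) : {v : ℕ × ℕ | depth v ≤ M}.Finite := by
  refine (Set.finite_Iic (M, M)).subset ?_
  rintro ⟨i, x⟩ h
  simp only [Set.mem_ofPred_eq, depth] at h
  simp only [Set.mem_Iic, Prod.mk_le_mk]
  omega

lemma Bf_tendsto (c : ℂ) (F : ℕ × ℕ → ℂ) (hF : Tendsto F cofinite (𝓝 0)) :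
    Tendsto (Bf c F) cofinite (𝓝 0) := by
  rw [tendsto_cofinite_iff] at hF ⊢
  intro ε hε
  have hc : 0 < 2 * ‖c‖ + 1 := by positivity
  have hK := hF (ε / (2 * ‖c‖ + 1)) (by positivity)
  obtain ⟨M, hM⟩ := (hK.image depth).bddAbove
  refine (finite_depth_le (M + 2)).subset ?_
  intro v hv
  obtain ⟨u, hu1, hu2⟩ := Bf_exists c F v
  have hv' : ε ≤ ‖Bf c F v‖ := hv
  have h1 : ε / (2 * ‖c‖ + 1) ≤ ‖F u‖ := by
    rw [div_le_iff₀ hc]
    nlinarith [norm_nonneg (F u)]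
  have h2 : depth u ≤ M := hM ⟨u, h1, rfl⟩
  show depth v ≤ M + 2
  omega

lemma Bf_add (c : ℂ) (F G : ℕ × ℕ → ℂ) : Bf c (F + G) = Bf c F + Bf c G := by
  have h : F + G = D (S F + S G) := by
    funext v
    have e1 := congrFun (D_S F) v
    have e2 := congrFun (D_S G) v
    simp only [Pi.add_apply]
    rw [← e1, ← e2]
    simp only [D, Pi.add_apply]
    split_ifs <;> ring
  rw [h, ← D_comp]
  conv_rhs => rw [← D_S F, ← D_S G, ← D_comp, ← D_comp]
  funext v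
  simp only [D, Pi.add_apply, Pi.smul_apply, Function.comp, smul_eq_mul]
  split_ifs <;> ring

lemma Bf_smul (c a : ℂ) (F : ℕ × ℕ → ℂ) : Bf c (a • F) = a • Bf c F := by
  have h : a • F = D (a • S F) := by
    funext v
    have e1 := congrFun (D_S F) v
    simp only [Pi.smul_apply, smul_eq_mul]
    rw [← e1]
    simp only [D, Pi.smul_apply, smul_eq_mul]
    split_ifs <;> ring
  rw [h, ← D_comp]
  conv_rhs => rw [← D_S F, ← D_comp]
  funext v
  simp only [D, Pi.smul_apply, Function.comp, smul_eq_mul]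
  split_ifs <;> ring

/-- The operator `f ↦ c • (f ∘ phi)` transported to `C₀(ℕ × ℕ, ℂ)`. -/
noncomputable def B (c : ℂ) : C₀(ℕ × ℕ, ℂ) →L[ℂ] C₀(ℕ × ℕ, ℂ) :=
  LinearMap.mkContinuous
    { toFun := fun F => mkY (Bf c F) (Bf_tendsto c F (Y_tendsto F))
      map_add' := fun F G => by
        ext v
        simp only [mkY_apply, ZeroAtInftyContinuousMap.coe_add, Bf_add, Pi.add_apply]
      map_smul' := fun a F => by
        ext v
        simp only [mkY_apply, ZeroAtInftyContinuousMap.coe_smul, Bf_smul, Pi.smul_apply,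
          RingHom.id_apply] }
    (2 * ‖c‖)
    (fun F => norm_le_of _ (by positivity) (fun v => Bf_norm_le c F (norm_apply_le F) v))

lemma B_apply (c : ℂ) (F : C₀(ℕ × ℕ, ℂ)) : ((B c F : C₀(ℕ × ℕ, ℂ)) : ℕ × ℕ → ℂ) = Bf c F := rfl

/-- The operator on functions. -/
def A (c : ℂ) (f : ℕ × ℕ → ℂ) : ℕ × ℕ → ℂ := c • (f ∘ phi)

lemma D_A_iterate (c : ℂ) (n : ℕ) (f : ℕ × ℕ → ℂ) : D ((A c)^[n] f) = (Bf c)^[n] (D f) := by
  induction n generalizing f with
  | zero => rfl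
  | succ n ih =>
    rw [Function.iterate_succ_apply, Function.iterate_succ_apply, ih]
    unfold A
    rw [D_comp]

lemma A_iterate (c : ℂ) (n : ℕ) (f : ℕ × ℕ → ℂ) (v : ℕ × ℕ) :
    (A c)^[n] f v = c ^ n * f (phi^[n] v) := by
  induction n generalizing f with
  | zero => simp
  | succ n ih =>
    rw [Function.iterate_succ_apply, ih, Function.iterate_succ_apply']
    simp only [A, Pi.smul_apply, Function.comp, smul_eq_mul]
    ring

lemma B_pow_apply (c : ℂ) (n : ℕ) (F : C₀(ℕ × ℕ, ℂ)) :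
    (((B c ^ n) F : C₀(ℕ × ℕ, ℂ)) : ℕ × ℕ → ℂ) = (Bf c)^[n] F := by
  induction n generalizing F with
  | zero => rfl
  | succ n ih =>
    rw [Function.iterate_succ_apply, ← B_apply, ← ih, pow_succ]
    rfl

/-- The key identity: if `F` is the difference function of `f`, then `B^n F` is that of `A^n f`. -/
lemma B_pow_eq (c : ℂ) (n : ℕ) (F : C₀(ℕ × ℕ, ℂ)) (f : ℕ × ℕ → ℂ)
    (h : (F : ℕ × ℕ → ℂ) = D f) (v : ℕ × ℕ) :
    ((B c ^ n) F : C₀(ℕ × ℕ, ℂ)) v = D (fun w => c ^ n * f (phi^[n] w)) v := by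
  have : (((B c ^ n) F : C₀(ℕ × ℕ, ℂ)) : ℕ × ℕ → ℂ) = D ((A c)^[n] f) := by
    rw [B_pow_apply, D_A_iterate, h]
  rw [this]
  congr 1
  funext w
  exact A_iterate c n f w

lemma norm_D_le {f : ℕ × ℕ → ℂ} {M : ℝ} (hf : ∀ v, ‖f v‖ ≤ M) (v : ℕ × ℕ) : ‖D f v‖ ≤ 2 * M := by
  have hM : 0 ≤ M := (norm_nonneg _).trans (hf (0, 0))
  simp only [D]
  split_ifs
  · linarith [hf v]
  · calc ‖f v - f (par v)‖ ≤ ‖f v‖ + ‖f (par v)‖ := norm_sub_le _ _
      _ ≤ 2 * M := by linarith [hf v, hf (par v)]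

/-- Bounded functions have orbits tending to zero when `‖c‖ < 1`. -/
lemma tendsto_of_bounded {c : ℂ} (hc : ‖c‖ < 1) (F : C₀(ℕ × ℕ, ℂ)) (f : ℕ × ℕ → ℂ) {M : ℝ}
    (h : (F : ℕ × ℕ → ℂ) = D f) (hf : ∀ v, ‖f v‖ ≤ M) :
    Tendsto (fun n : ℕ => (B c ^ n) F) atTop (𝓝 0) := by
  have hM : 0 ≤ M := (norm_nonneg _).trans (hf (0, 0))
  rw [tendsto_zero_iff_norm_tendsto_zero]
  refine squeeze_zero (fun _ => norm_nonneg _) (g := fun n : ℕ => 2 * (‖c‖ ^ n * M)) ?_ ?_
  · intro n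
    refine norm_le_of _ (by positivity) fun v => ?_
    rw [B_pow_eq c n F f h]
    refine norm_D_le (M := ‖c‖ ^ n * M) (fun w => ?_) v
    rw [norm_mul, norm_pow]
    exact mul_le_mul_of_nonneg_left (hf _) (by positivity)
  · have := (tendsto_pow_atTop_nhds_zero_of_lt_one (norm_nonneg c) hc).mul_const M
    have := this.const_mul 2
    simpa using this

end Pool.Agent.H70.LittleLip
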