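import Mathlib
import Pool.Agent.H70.CombOp2

set_option autoImplicit false

namespace Pool.Agent.H70.LittleLip

open Filter Topology TopologicalSpace
open scoped ZeroAtInfty

/-- Membership of `v` in the subtree of `u`. -/
def inT (u v : ℕ × ℕ) : Prop := if u.2 = 0 then u.1 ≤ v.1 else (u.1 = v.1 ∧ u.2 ≤ v.2)

instance (u v : ℕ × ℕ) : Decidable (inT u v) := by unfold inT; infer_instance

lemma inT_self (u : ℕ × ℕ) : inT u u := by
  unfold inT; split_ifs <;> simp

lemma inT_par {u v : ℕ × ℕ} (hv : v ≠ (0, 0)) (huv : v ≠ u) : inT u v ↔ inT u (par v) := by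
  obtain ⟨i, x⟩ := u
  obtain ⟨j, y⟩ := v
  rcases y with _ | y
  · rcases j with _ | j
    · exact absurd rfl hv
    · simp only [inT, par_zero]
      rcases x with _ | x
      · simp only [if_true]
        have : j + 1 ≠ i := by rintro rfl; exact huv rfl
        omega
      · simp
  · simp only [inT, par_succ]
    rcases x with _ | x
    · simp
    · simp only [Nat.add_eq_zero_iff, one_ne_zero, and_false, if_false]
      have : ¬ (j = i ∧ y = x) := by rintro ⟨rfl, rfl⟩; exact huv rfl
      omega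

lemma not_inT_par {u : ℕ × ℕ} (hu : u ≠ (0, 0)) : ¬ inT u (par u) := by
  obtain ⟨i, x⟩ := u
  rcases x with _ | x
  · rcases i with _ | i
    · exact absurd rfl hu
    · simp [inT]
  · simp [inT]

lemma inT_root {u : ℕ × ℕ} (h : inT u (0, 0)) : u = (0, 0) := by
  obtain ⟨i, x⟩ := u
  rcases x with _ | x
  · simp only [inT, if_true, Nat.le_zero_eq] at h
    simp [h]
  · simp [inT] at h

lemma depth_le_of_inT {u v : ℕ × ℕ} (h : inT u v) : depth u ≤ depth v := by
  obtain ⟨i, x⟩ := u
  obtain ⟨j, y⟩ := v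
  unfold inT at h
  simp only [depth]
  split_ifs at h with h0
  · simp only at h h0; omega
  · simp only at h h0; omega

lemma D_tendsto_of_support (f : ℕ × ℕ → ℂ) (M : ℕ) (h : ∀ v, M < depth v → f v = 0) :
    Tendsto (D f) cofinite (𝓝 0) := by
  rw [tendsto_cofinite_iff]
  intro ε hε
  refine (finite_depth_le (M + 1)).subset ?_
  intro v hv
  by_contra hcon
  have hcon' : M + 1 < depth v := by
    simpa using hcon
  have hv' : ε ≤ ‖D f v‖ := hv
  have hne : v ≠ (0, 0) := by
    rintro rfl
    simp [depth] at hcon'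
  rw [D_of_ne f hne, h v (by omega), h (par v) (by have := depth_par hne; omega)] at hv'
  simp at hv'
  linarith

/-- The unit vectors. -/
noncomputable def eY (u : ℕ × ℕ) : C₀(ℕ × ℕ, ℂ) :=
  mkY (Pi.single u 1) (by
    rw [tendsto_cofinite_iff]
    intro ε hε
    refine (Set.finite_singleton u).subset ?_
    intro v hv
    by_contra hne
    have hv' : ε ≤ ‖(Pi.single u (1 : ℂ) : ℕ × ℕ → ℂ) v‖ := hv
    rw [Pi.single_eq_of_ne (by simpa using hne)] at hv'
    simp at hv'
    linarith)

lemma dense_span_eY : Dense (Submodule.span ℂ (Set.range eY) : Set C₀(ℕ × ℕ, ℂ)) := by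
  classical
  rw [Metric.dense_iff]
  intro F ε hε
  have hK := (tendsto_cofinite_iff F).1 (Y_tendsto F) (ε / 2) (by positivity)
  refine ⟨∑ u ∈ hK.toFinset, F u • eY u, ?_, ?_⟩
  · rw [Metric.mem_ball, dist_comm, dist_eq_norm]
    refine lt_of_le_of_lt (norm_le_of _ (M := ε / 2) (by positivity) fun v => ?_) (by linarith)
    have hsum : (∑ u ∈ hK.toFinset, F u • eY u : C₀(ℕ × ℕ, ℂ)) v =
        if v ∈ hK.toFinset then F v else 0 := by
      have : ((∑ u ∈ hK.toFinset, F u • eY u : C₀(ℕ × ℕ, ℂ)) : ℕ × ℕ → ℂ) v =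
          ∑ u ∈ hK.toFinset, F u * (Pi.single u (1 : ℂ) : ℕ × ℕ → ℂ) v := by
        induction hK.toFinset using Finset.induction_on with
        | empty => simp
        | insert a s ha ih =>
          rw [Finset.sum_insert ha, Finset.sum_insert ha, ZeroAtInftyContinuousMap.add_apply, ih]
          rfl
      rw [this]
      simp only [Pi.single_apply, mul_ite, mul_one, mul_zero, Finset.sum_ite_eq]
    rw [ZeroAtInftyContinuousMap.sub_apply, hsum]
    by_cases hv : v ∈ hK.toFinset
    · rw [if_pos hv]; simp; positivity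
    · rw [if_neg hv, sub_zero]
      simp only [Set.Finite.mem_toFinset, Set.mem_ofPred_eq, not_le] at hv
      exact hv.le
  · exact Submodule.sum_mem _ fun u _ => Submodule.smul_mem _ _ (Submodule.subset_span ⟨u, rfl⟩)

instance : SeparableSpace C₀(ℕ × ℕ, ℂ) := by
  rw [← isSeparable_univ_iff]
  have h1 : IsSeparable (Set.range eY) := (Set.countable_range eY).isSeparable
  have h2 : IsSeparable (Submodule.span ℂ (Set.range eY) : Set C₀(ℕ × ℕ, ℂ)) := h1.span
  have h3 := h2.closure
  rwa [dense_span_eY.closure_eq] at h3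

/-- The indicator of the subtree of `u`. -/
noncomputable def fT (u v : ℕ × ℕ) : ℂ := if inT u v then 1 else 0

lemma D_fT (u : ℕ × ℕ) : D (fT u) = Pi.single u 1 := by
  funext v
  by_cases hv : v = (0, 0)
  · subst hv
    rw [D_root]
    by_cases hu : u = (0, 0)
    · subst hu
      simp [fT, inT_self]
    · rw [Pi.single_eq_of_ne (Ne.symm hu)]
      simp only [fT, ite_eq_right_iff, one_ne_zero, imp_false]
      exact fun h => hu (inT_root h)
  · rw [D_of_ne _ hv]
    by_cases huv : v = u
    · subst huv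
      rw [Pi.single_eq_same]
      simp [fT, inT_self, not_inT_par hv]
    · rw [Pi.single_eq_of_ne huv]
      simp only [fT, inT_par hv huv, sub_self]

lemma norm_fT_le (u v : ℕ × ℕ) : ‖fT u v‖ ≤ 1 := by
  unfold fT; split_ifs <;> simp

lemma dense_tendsto_zero {c : ℂ} (hc : ‖c‖ < 1) :
    Dense {F : C₀(ℕ × ℕ, ℂ) | Tendsto (fun n : ℕ => (B c ^ n) F) atTop (𝓝 0)} := by
  let Q : Submodule ℂ C₀(ℕ × ℕ, ℂ) :=
    { carrier := {F | Tendsto (fun n : ℕ => (B c ^ n) F) atTop (𝓝 0)}
      add_mem' := by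
        intro F G hF hG
        show Tendsto _ _ _
        have := Tendsto.add (show Tendsto (fun n : ℕ => (B c ^ n) F) atTop (𝓝 0) from hF)
          (show Tendsto (fun n : ℕ => (B c ^ n) G) atTop (𝓝 0) from hG)
        simpa [map_add] using this
      zero_mem' := by
        show Tendsto _ _ _
        simp
      smul_mem' := by
        intro a F hF
        show Tendsto _ _ _
        have := Tendsto.const_smul (show Tendsto (fun n : ℕ => (B c ^ n) F) atTop (𝓝 0) from hF) a
        simpa [map_smul] using this }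
  have hle : Submodule.span ℂ (Set.range eY) ≤ Q := by
    rw [Submodule.span_le]
    rintro _ ⟨u, rfl⟩
    exact tendsto_of_bounded hc (eY u) (fT u) (M := 1) (D_fT u).symm (norm_fT_le u)
  exact dense_span_eY.mono hle

/-- The vectors which are approximately `n`-th images of small vectors, for all large `n`. -/
def P (c : ℂ) : Set C₀(ℕ × ℕ, ℂ) :=
  {G | ∀ ε : ℝ, 0 < ε → ∀ᶠ n : ℕ in atTop, ∃ U : C₀(ℕ × ℕ, ℂ), ‖U‖ < ε ∧ ‖(B c ^ n) U - G‖ < ε}

lemma P_add {c : ℂ} {F G : C₀(ℕ × ℕ, ℂ)} (hF : F ∈ P c) (hG : G ∈ P c) : F + G ∈ P c := by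
  intro ε hε
  filter_upwards [hF (ε / 2) (by positivity), hG (ε / 2) (by positivity)] with n h1 h2
  obtain ⟨U, hU, hU'⟩ := h1
  obtain ⟨W, hW, hW'⟩ := h2
  refine ⟨U + W, (norm_add_le _ _).trans_lt (by linarith), ?_⟩
  have : (B c ^ n) (U + W) - (F + G) = ((B c ^ n) U - F) + ((B c ^ n) W - G) := by
    rw [map_add]; abel
  rw [this]
  exact (norm_add_le _ _).trans_lt (by linarith)

lemma P_smul {c a : ℂ} {F : C₀(ℕ × ℕ, ℂ)} (hF : F ∈ P c) : a • F ∈ P c := by
  intro ε hε
  have hpos : 0 < ‖a‖ + 1 := by positivity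
  filter_upwards [hF (ε / (‖a‖ + 1)) (by positivity)] with n h1
  obtain ⟨U, hU, hU'⟩ := h1
  rw [lt_div_iff₀ hpos] at hU hU'
  refine ⟨a • U, ?_, ?_⟩
  · rw [norm_smul]
    nlinarith [norm_nonneg U, norm_nonneg a]
  · have hs : (B c ^ n) (a • U) - a • F = a • ((B c ^ n) U - F) := by
      rw [map_smul]
      ext v
      simp only [ZeroAtInftyContinuousMap.sub_apply, ZeroAtInftyContinuousMap.smul_apply,
        smul_eq_mul]
      ring
    rw [hs, norm_smul]
    nlinarith [norm_nonneg ((B c ^ n) U - F), norm_nonneg a]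

lemma P_zero {c : ℂ} : (0 : C₀(ℕ × ℕ, ℂ)) ∈ P c := by
  intro ε hε
  exact Eventually.of_forall fun n => ⟨0, by simpa using hε, by simpa using hε⟩

lemma P_closed {c : ℂ} {G : C₀(ℕ × ℕ, ℂ)}
    (h : ∀ δ : ℝ, 0 < δ → ∃ G' ∈ P c, ‖G' - G‖ < δ) : G ∈ P c := by
  intro ε hε
  obtain ⟨G', hG', hd⟩ := h (ε / 2) (by positivity)
  filter_upwards [hG' (ε / 2) (by positivity)] with n h1
  obtain ⟨U, hU, hU'⟩ := h1
  refine ⟨U, by linarith, ?_⟩
  have : (B c ^ n) U - G = ((B c ^ n) U - G') + (G' - G) := by abel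
  rw [this]
  exact (norm_add_le _ _).trans_lt (by linarith)

/-- The difference function of the indicator of `v`. -/
noncomputable def chiY (v : ℕ × ℕ) : C₀(ℕ × ℕ, ℂ) :=
  mkY (D (Pi.single v 1)) (D_tendsto_of_support _ (depth v) (by
    intro w hw
    rw [Pi.single_eq_of_ne]
    rintro rfl
    exact lt_irrefl _ hw))

/-- Truncations of the indicator of the subtree of `u`. -/
noncomputable def gT (u : ℕ × ℕ) (N : ℕ) (v : ℕ × ℕ) : ℂ :=
  if inT u v then ((max 0 (1 - ((depth v : ℝ) - depth u) / N) : ℝ) : ℂ) else 0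

lemma gT_support (u : ℕ × ℕ) {N : ℕ} (hN : 0 < N) (v : ℕ × ℕ) (hv : depth u + N < depth v) :
    gT u N v = 0 := by
  unfold gT
  split_ifs with h
  · have hN' : (0 : ℝ) < N := by exact_mod_cast hN
    have h1 : (depth u : ℝ) + N < depth v := by exact_mod_cast hv
    have : 1 - ((depth v : ℝ) - depth u) / N ≤ 0 := by
      rw [sub_nonpos, le_div_iff₀ hN']
      linarith
    rw [max_eq_left this]
    simp
  · rfl

lemma max_lip (a b : ℝ) : |max 0 a - max 0 b| ≤ |a - b| := by
  rcases le_total 0 a with ha | ha <;> rcases le_total 0 b with hb | hb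
  · rw [max_eq_right ha, max_eq_right hb]
  · rw [max_eq_right ha, max_eq_left hb, sub_zero, abs_of_nonneg ha]
    exact (by linarith : a ≤ a - b).trans (le_abs_self _)
  · rw [max_eq_left ha, max_eq_right hb, zero_sub, abs_neg, abs_of_nonneg hb, abs_sub_comm]
    exact (by linarith : b ≤ b - a).trans (le_abs_self _)
  · rw [max_eq_left ha, max_eq_left hb]; simp

lemma norm_D_gT_sub (u : ℕ × ℕ) {N : ℕ} (hN : 0 < N) (v : ℕ × ℕ) :
    ‖D (gT u N) v - (Pi.single u (1 : ℂ) : ℕ × ℕ → ℂ) v‖ ≤ 1 / N := by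
  have hN' : (0 : ℝ) < N := by exact_mod_cast hN
  have hself : gT u N u = 1 := by
    simp [gT, inT_self]
  by_cases hv : v = (0, 0)
  · subst hv
    rw [D_root]
    by_cases hu : u = (0, 0)
    · subst hu
      rw [Pi.single_eq_same, hself]; simp
    · rw [Pi.single_eq_of_ne (Ne.symm hu)]
      have : ¬ inT u (0, 0) := fun h => hu (inT_root h)
      simp [gT, this]
  · rw [D_of_ne _ hv]
    by_cases huv : v = u
    · subst huv
      rw [Pi.single_eq_same, hself]
      simp [gT, not_inT_par hv]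
    · rw [Pi.single_eq_of_ne huv, sub_zero]
      by_cases hin : inT u v
      · have hin' : inT u (par v) := (inT_par hv huv).1 hin
        simp only [gT, hin, hin', if_true]
        rw [← Complex.ofReal_sub, Complex.norm_real, Real.norm_eq_abs]
        refine (max_lip _ _).trans ?_
        have hd : (depth (par v) : ℝ) + 1 = depth v := by exact_mod_cast depth_par hv
        have : (1 - ((depth v : ℝ) - depth u) / N) - (1 - ((depth (par v) : ℝ) - depth u) / N) =
            - (1 / N) := by
          rw [← hd]; field_simp; ring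
        rw [this, abs_neg, abs_of_nonneg (by positivity)]
      · have hin' : ¬ inT u (par v) := fun h => hin ((inT_par hv huv).2 h)
        simp only [gT, hin, hin', if_false, sub_self, norm_zero]
        positivity

lemma P_of_support {c : ℂ} (hchi : ∀ v, chiY v ∈ P c) (g : ℕ × ℕ → ℂ) (M : ℕ)
    (h : ∀ v, M < depth v → g v = 0) : mkY (D g) (D_tendsto_of_support g M h) ∈ P c := by
  classical
  have heq : mkY (D g) (D_tendsto_of_support g M h) =
      ∑ v ∈ (finite_depth_le M).toFinset, g v • chiY v := by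
    ext w
    have : ((∑ v ∈ (finite_depth_le M).toFinset, g v • chiY v : C₀(ℕ × ℕ, ℂ)) : ℕ × ℕ → ℂ) w =
        ∑ v ∈ (finite_depth_le M).toFinset, g v * D (Pi.single v 1) w := by
      induction (finite_depth_le M).toFinset using Finset.induction_on with
      | empty => simp
      | insert a s ha ih =>
        rw [Finset.sum_insert ha, Finset.sum_insert ha, ZeroAtInftyContinuousMap.add_apply, ih]
        rfl
    rw [this, mkY_apply]
    have hg : ∀ x : ℕ × ℕ, g x = ∑ v ∈ (finite_depth_le M).toFinset,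
        g v * (Pi.single v (1 : ℂ) : ℕ × ℕ → ℂ) x := by
      intro x
      simp only [Pi.single_apply, mul_ite, mul_one, mul_zero, Finset.sum_ite_eq,
        Set.Finite.mem_toFinset, Set.mem_ofPred_eq]
      split_ifs with hx
      · rfl
      · exact h x (by omega)
    simp only [D]
    by_cases hw : w = (0, 0)
    · simp only [hw, if_true]; exact hg _
    · simp only [hw, if_false]
      rw [hg w, hg (par w), ← Finset.sum_sub_distrib]
      refine Finset.sum_congr rfl fun v _ => ?_
      ring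
  rw [heq]
  refine Finset.sum_induction _ (fun F => F ∈ P c) (fun _ _ => P_add) P_zero ?_
  intro v _
  exact P_smul (hchi v)

lemma eY_mem_P {c : ℂ} (hchi : ∀ v, chiY v ∈ P c) (u : ℕ × ℕ) : eY u ∈ P c := by
  apply P_closed
  intro δ hδ
  obtain ⟨N, hN⟩ := exists_nat_one_div_lt hδ
  refine ⟨mkY (D (gT u (N + 1))) (D_tendsto_of_support _ (depth u + (N + 1))
    (gT_support u (Nat.succ_pos N))), P_of_support hchi _ (depth u + (N + 1))
    (gT_support u (Nat.succ_pos N)), ?_⟩
  refine lt_of_le_of_lt (norm_le_of _ (M := 1 / ((N : ℝ) + 1)) (by positivity) fun v => ?_) hN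
  have := norm_D_gT_sub u (Nat.succ_pos N) v
  rw [Nat.cast_succ] at this
  exact this

lemma dense_P {c : ℂ} (hchi : ∀ v, chiY v ∈ P c) : Dense (P c) := by
  let Q : Submodule ℂ C₀(ℕ × ℕ, ℂ) :=
    { carrier := P c
      add_mem' := P_add
      zero_mem' := P_zero
      smul_mem' := fun a F hF => P_smul hF }
  have hle : Submodule.span ℂ (Set.range eY) ≤ Q := by
    rw [Submodule.span_le]
    rintro _ ⟨u, rfl⟩
    exact eY_mem_P hchi u
  exact dense_span_eY.mono hle

end Pool.Agent.H70.LittleLip
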