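import Mathlib
import Pool.Agent.H70.CombDense

set_option autoImplicit false

namespace Pool.Agent.H70.LittleLip

open Filter Topology TopologicalSpace
open scoped ZeroAtInfty

/-- The position of a vertex of the comb as a positive dyadic rational. -/
noncomputable def val (w : ℕ × ℕ) : ℝ :=
  if w.1 = 0 then (w.2 : ℝ) + 1 else (2 * (w.2 : ℝ) + 1) / 2 ^ w.1

lemma val_zero (x : ℕ) : val (0, x) = x + 1 := by simp [val]
lemma val_succ (i x : ℕ) : val (i + 1, x) = (2 * (x : ℝ) + 1) / 2 ^ (i + 1) := by simp [val]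

lemma val_phi (w : ℕ × ℕ) : val (phi w) = 2 * val w := by
  obtain ⟨i, x⟩ := w
  rcases i with _ | _ | i
  · rw [phi_zero, val_zero, val_zero]; push_cast; ring
  · rw [phi_one, val_zero, val_succ]; push_cast; ring
  · rw [phi_add_two, val_succ, val_succ, pow_succ (n := i + 1)]
    field_simp

lemma val_iterate (n : ℕ) (w : ℕ × ℕ) : val (phi^[n] w) = 2 ^ n * val w := by
  induction n with
  | zero => simp
  | succ n ih => rw [Function.iterate_succ_apply', val_phi, ih, pow_succ]; ring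

lemma fst_phi (w : ℕ × ℕ) : (phi w).1 = w.1 - 1 := by
  obtain ⟨i, x⟩ := w
  rcases i with _ | _ | i
  · simp
  · simp
  · simp

lemma fst_iterate (n : ℕ) (w : ℕ × ℕ) : (phi^[n] w).1 = w.1 - n := by
  induction n with
  | zero => simp
  | succ n ih => rw [Function.iterate_succ_apply', fst_phi, ih]; omega

lemma exists_iterate {n : ℕ} {w : ℕ × ℕ} (h : w.1 ≤ n) :
    ∃ z : ℕ, phi^[n] w = (0, z) ∧ (z : ℝ) + 1 = 2 ^ n * val w := by
  have h1 : (phi^[n] w).1 = 0 := by rw [fst_iterate]; omega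
  refine ⟨(phi^[n] w).2, Prod.ext h1 rfl, ?_⟩
  rw [← val_iterate]
  have : phi^[n] w = (0, (phi^[n] w).2) := Prod.ext h1 rfl
  rw [this, val_zero]

lemma val_sep {n : ℕ} {v w : ℕ × ℕ} (hne : w ≠ v) (hv : v.1 ≤ n) (hw : w.1 ≤ n) :
    1 / 2 ^ n ≤ |val w - val v| := by
  obtain ⟨a, ha, ha'⟩ := exists_iterate hv
  obtain ⟨b, hb, hb'⟩ := exists_iterate hw
  have hab : b ≠ a := by
    rintro rfl
    exact hne ((phi_bijective.injective.iterate n) (hb.trans ha.symm))
  have h1 : (1 : ℝ) ≤ |(b : ℝ) - a| := by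
    have : (1 : ℤ) ≤ |(b : ℤ) - a| := Int.one_le_abs (sub_ne_zero.2 (by exact_mod_cast hab))
    exact_mod_cast this
  have h2 : (b : ℝ) - a = 2 ^ n * (val w - val v) := by
    rw [mul_sub, ← ha', ← hb']; ring
  rw [h2, abs_mul, abs_of_pos (by positivity : (0 : ℝ) < 2 ^ n)] at h1
  rw [div_le_iff₀ (by positivity)]
  linarith

lemma val_lower (v : ℕ × ℕ) : 1 / 2 ^ v.1 ≤ val v := by
  obtain ⟨i, x⟩ := v
  rcases i with _ | i
  · rw [val_zero]; simp
  · rw [val_succ]
    apply div_le_div_of_nonneg_right _ (by positivity)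
    have : (0 : ℝ) ≤ x := Nat.cast_nonneg x
    linarith

lemma val_spine (j : ℕ) : val (j, 0) = 1 / 2 ^ j := by
  rcases j with _ | j
  · rw [val_zero]; simp
  · rw [val_succ]; simp

lemma spine_sep {v : ℕ × ℕ} {j : ℕ} (hne : (j, 0) ≠ v) :
    1 / 2 ^ (v.1 + 1) ≤ |val (j, 0) - val v| := by
  have hhalf : (1 : ℝ) / 2 ^ (v.1 + 1) ≤ 1 / 2 ^ v.1 := by
    apply one_div_le_one_div_of_le (by positivity)
    exact pow_le_pow_right₀ (by norm_num) (Nat.le_succ _)
  by_cases hj : j ≤ v.1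
  · exact hhalf.trans (val_sep hne le_rfl hj)
  · push Not at hj
    have h1 : val (j, 0) ≤ 1 / 2 ^ (v.1 + 1) := by
      rw [val_spine]
      apply one_div_le_one_div_of_le (by positivity)
      exact pow_le_pow_right₀ (by norm_num) hj
    have h2 := val_lower v
    have h3 : (1 : ℝ) / 2 ^ v.1 = 2 * (1 / 2 ^ (v.1 + 1)) := by
      rw [pow_succ]; field_simp
    rw [abs_sub_comm]
    refine le_trans ?_ (le_abs_self _)
    linarith

lemma tooth_step {j : ℕ} (hj : 0 < j) (y : ℕ) :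
    val (j, y + 1) - val (j, y) = 2 * (1 / 2 ^ j) := by
  obtain ⟨i, rfl⟩ : ∃ i, j = i + 1 := ⟨j - 1, by omega⟩
  rw [val_succ, val_succ]
  push_cast
  field_simp
  ring

/-- The averaged tent function. -/
noncomputable def H (i N : ℕ) (t : ℝ) : ℝ :=
  (1 / (N : ℝ)) * ∑ k ∈ Finset.range N, max 0 (1 - 2 ^ (i + k + 1) * t)

lemma H_zero {i N : ℕ} (hN : 0 < N) : H i N 0 = 1 := by
  have hN' : (N : ℝ) ≠ 0 := by exact_mod_cast hN.ne'
  simp [H, hN']

lemma H_eq_zero {i N : ℕ} {t : ℝ} (ht : 1 / 2 ^ (i + 1) ≤ t) : H i N t = 0 := by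
  unfold H
  rw [Finset.sum_eq_zero, mul_zero]
  intro k _
  apply max_eq_left
  have h1 : (1 : ℝ) ≤ 2 ^ (i + 1) * t := by
    rw [div_le_iff₀ (by positivity)] at ht
    linarith
  have h2 : (2 : ℝ) ^ (i + 1) * t ≤ 2 ^ (i + k + 1) * t := by
    apply mul_le_mul_of_nonneg_right
    · exact pow_le_pow_right₀ (by norm_num) (by omega)
    · have : (0 : ℝ) < 1 / 2 ^ (i + 1) := by positivity
      linarith
  linarith

lemma H_lip {i N : ℕ} (hN : 0 < N) (s t : ℝ) : |H i N s - H i N t| ≤ 2 ^ (i + N) * |s - t| := by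
  have hN' : (0 : ℝ) < N := by exact_mod_cast hN
  unfold H
  rw [← mul_sub, ← Finset.sum_sub_distrib, abs_mul, abs_of_pos (by positivity : 0 < 1 / (N : ℝ))]
  have : |∑ k ∈ Finset.range N, (max 0 (1 - 2 ^ (i + k + 1) * s) - max 0 (1 - 2 ^ (i + k + 1) * t))|
      ≤ ∑ k ∈ Finset.range N, (2 ^ (i + N) * |s - t| : ℝ) := by
    refine (Finset.abs_sum_le_sum_abs _ _).trans (Finset.sum_le_sum fun k hk => ?_)
    refine (max_lip _ _).trans ?_
    have e : (1 - 2 ^ (i + k + 1) * s) - (1 - 2 ^ (i + k + 1) * t) = 2 ^ (i + k + 1) * (t - s) := by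
      ring
    rw [e, abs_mul, abs_of_pos (by positivity : (0 : ℝ) < 2 ^ (i + k + 1)), abs_sub_comm]
    apply mul_le_mul_of_nonneg_right _ (abs_nonneg _)
    apply pow_le_pow_right₀ (by norm_num)
    rw [Finset.mem_range] at hk
    omega
  rw [Finset.sum_const, Finset.card_range, nsmul_eq_mul] at this
  calc 1 / (N : ℝ) * _ ≤ 1 / (N : ℝ) * (N * (2 ^ (i + N) * |s - t|)) :=
        mul_le_mul_of_nonneg_left this (by positivity)
    _ = 2 ^ (i + N) * |s - t| := by field_simp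

lemma geom_aux (i : ℕ) {a : ℝ} (ha : 0 < a) (N : ℕ) :
    ∑ k ∈ Finset.range N, (if 2 ^ (i + k + 1) * a < 1 then 2 ^ (i + k + 1) * a else 0) ≤ 2 ∧
    ∑ k ∈ Finset.range N, (if 2 ^ (i + k + 1) * a < 1 then 2 ^ (i + k + 1) * a else 0)
      ≤ 2 ^ (i + N + 1) * a := by
  induction N with
  | zero =>
    refine ⟨by simp, ?_⟩
    simp only [Finset.range_zero, Finset.sum_empty]
    positivity
  | succ N ih =>
    obtain ⟨h1, h2⟩ := ih
    rw [Finset.sum_range_succ]
    have e : (2 : ℝ) ^ (i + (N + 1) + 1) * a = 2 * (2 ^ (i + N + 1) * a) := by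
      rw [show i + (N + 1) + 1 = (i + N + 1) + 1 by ring, pow_succ]; ring
    have hpos : 0 < (2 : ℝ) ^ (i + N + 1) * a := by positivity
    rw [e]
    split_ifs with h
    · constructor <;> linarith
    · constructor <;> linarith

lemma H_diff {i N : ℕ} (hN : 0 < N) {δ s t : ℝ} (hδ : 0 < δ) (hs : δ ≤ s) (ht : δ ≤ t)
    (hst : |s - t| ≤ 2 * δ) : |H i N s - H i N t| ≤ 4 / N := by
  have hN' : (0 : ℝ) < N := by exact_mod_cast hN
  unfold H
  rw [← mul_sub, ← Finset.sum_sub_distrib, abs_mul, abs_of_pos (by positivity : 0 < 1 / (N : ℝ))]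
  have : |∑ k ∈ Finset.range N, (max 0 (1 - 2 ^ (i + k + 1) * s) - max 0 (1 - 2 ^ (i + k + 1) * t))|
      ≤ ∑ k ∈ Finset.range N,
        2 * (if 2 ^ (i + k + 1) * δ < 1 then 2 ^ (i + k + 1) * δ else 0 : ℝ) := by
    refine (Finset.abs_sum_le_sum_abs _ _).trans (Finset.sum_le_sum fun k _ => ?_)
    have hp : (0 : ℝ) < 2 ^ (i + k + 1) := by positivity
    split_ifs with h
    · refine (max_lip _ _).trans ?_
      have e : (1 - 2 ^ (i + k + 1) * s) - (1 - 2 ^ (i + k + 1) * t) =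
          2 ^ (i + k + 1) * (t - s) := by
        ring
      rw [e, abs_mul, abs_of_pos hp, abs_sub_comm]
      calc (2 : ℝ) ^ (i + k + 1) * |s - t| ≤ 2 ^ (i + k + 1) * (2 * δ) :=
            mul_le_mul_of_nonneg_left hst hp.le
        _ = 2 * (2 ^ (i + k + 1) * δ) := by ring
    · push Not at h
      have e1 : max 0 (1 - 2 ^ (i + k + 1) * s) = 0 := by
        apply max_eq_left
        have := mul_le_mul_of_nonneg_left hs hp.le
        linarith
      have e2 : max 0 (1 - 2 ^ (i + k + 1) * t) = 0 := by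
        apply max_eq_left
        have := mul_le_mul_of_nonneg_left ht hp.le
        linarith
      rw [e1, e2]; simp
  rw [← Finset.mul_sum] at this
  have h2 := (geom_aux i hδ N).1
  calc 1 / (N : ℝ) * _ ≤ 1 / (N : ℝ) * 4 :=
        mul_le_mul_of_nonneg_left (by linarith) (by positivity)
    _ = 4 / N := by ring

end Pool.Agent.H70.LittleLip
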