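import Mathlib
import Pool.Agent.H70.CombBump

set_option autoImplicit false

namespace Pool.Agent.H70.LittleLip

open Filter Topology TopologicalSpace
open scoped ZeroAtInfty

/-- The small functions whose `n`-th images approximate the indicator of `v`. -/
noncomputable def un (c : ℂ) (v : ℕ × ℕ) (N n : ℕ) (w : ℕ × ℕ) : ℂ :=
  if w.1 = 0 then (c ^ n)⁻¹ * (H v.1 N |val w / 2 ^ n - val v| : ℝ) else 0

lemma un_image {c : ℂ} (hc : c ≠ 0) (v : ℕ × ℕ) (N n : ℕ) (w : ℕ × ℕ) :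
    c ^ n * un c v N n (phi^[n] w) =
      if w.1 ≤ n then ((H v.1 N |val w - val v| : ℝ) : ℂ) else 0 := by
  unfold un
  rw [fst_iterate, val_iterate]
  have h2 : (2 : ℝ) ^ n * val w / 2 ^ n = val w := by field_simp
  by_cases h : w.1 ≤ n
  · rw [if_pos (by omega), if_pos h, h2, ← mul_assoc, mul_inv_cancel₀ (pow_ne_zero n hc), one_mul]
  · rw [if_neg (by omega), if_neg h, mul_zero]

lemma un_support {c : ℂ} (v : ℕ × ℕ) (N n : ℕ) : ∃ M : ℕ, ∀ w, M < depth w → un c v N n w = 0 := by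
  obtain ⟨M, hM⟩ := exists_nat_ge (2 ^ n * (val v + 1))
  refine ⟨M, fun w hw => ?_⟩
  unfold un
  split_ifs with h
  · obtain ⟨j, y⟩ := w
    simp only at h
    subst h
    have hy : (M : ℝ) < y := by
      simp only [depth, Nat.zero_add] at hw
      exact_mod_cast hw
    rw [H_eq_zero, Complex.ofReal_zero, mul_zero]
    rw [val_zero]
    have h1 : val v + 1 ≤ ((y : ℝ) + 1) / 2 ^ n := by
      rw [le_div_iff₀ (by positivity)]
      linarith
    have h2 : (1 : ℝ) / 2 ^ (v.1 + 1) ≤ 1 := by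
      rw [div_le_one (by positivity)]
      exact one_le_pow₀ (by norm_num)
    refine le_trans ?_ (le_abs_self _)
    linarith
  · rfl

lemma un_root {c : ℂ} {v : ℕ × ℕ} {N n : ℕ} (hn : v.1 + 1 ≤ n) : un c v N n (0, 0) = 0 := by
  unfold un
  rw [if_pos rfl, H_eq_zero, Complex.ofReal_zero, mul_zero]
  rw [val_zero]
  have h1 : ((0 : ℕ) : ℝ) + 1 = 1 := by norm_num
  rw [h1]
  have h2 := val_lower v
  have h3 : (1 : ℝ) / 2 ^ v.1 = 2 * (1 / 2 ^ (v.1 + 1)) := by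
    rw [pow_succ]; field_simp
  have h4 : (1 : ℝ) / 2 ^ n ≤ 1 / 2 ^ (v.1 + 1) := by
    apply one_div_le_one_div_of_le (by positivity)
    exact pow_le_pow_right₀ (by norm_num) hn
  rw [abs_sub_comm]
  refine le_trans ?_ (le_abs_self _)
  linarith

lemma norm_D_un {c : ℂ} {v : ℕ × ℕ} {N n : ℕ} (hN : 0 < N) (hn : v.1 + 1 ≤ n) (w : ℕ × ℕ) :
    ‖D (un c v N n) w‖ ≤ 2 ^ (v.1 + N) * ((2 * ‖c‖) ^ n)⁻¹ := by
  have hpos : (0 : ℝ) ≤ 2 ^ (v.1 + N) * ((2 * ‖c‖) ^ n)⁻¹ := by positivity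
  obtain ⟨j, y⟩ := w
  rcases y with _ | y
  · rcases j with _ | j
    · rw [D_root, un_root hn, norm_zero]; exact hpos
    · rw [D_spine]
      have e1 : un c v N n (j + 1, 0) = 0 := by simp [un]
      have e2 : un c v N n (j, 0) = 0 := by
        rcases j with _ | j
        · exact un_root hn
        · simp [un]
      rw [e1, e2, sub_zero, norm_zero]; exact hpos
  · rw [D_tooth]
    rcases j with _ | j
    · have e1 : un c v N n (0, y + 1) - un c v N n (0, y) =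
          (c ^ n)⁻¹ * ((H v.1 N |val (0, y + 1) / 2 ^ n - val v| -
            H v.1 N |val (0, y) / 2 ^ n - val v| : ℝ) : ℂ) := by
        simp only [un, if_true]
        push_cast
        ring
      rw [e1, norm_mul, norm_inv, norm_pow, Complex.norm_real, Real.norm_eq_abs]
      have h2 : |(|val (0, y + 1) / 2 ^ n - val v| - |val (0, y) / 2 ^ n - val v|)| ≤
          1 / 2 ^ n := by
        refine (abs_abs_sub_abs_le _ _).trans ?_
        rw [val_zero, val_zero]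
        have : (((y + 1 : ℕ) : ℝ) + 1) / 2 ^ n - val v - (((y : ℝ) + 1) / 2 ^ n - val v) =
            1 / 2 ^ n := by
          push_cast; ring
        rw [this, abs_of_pos (by positivity)]
      generalize |val (0, y + 1) / 2 ^ n - val v| = s at h2 ⊢
      generalize |val (0, y) / 2 ^ n - val v| = t at h2 ⊢
      have h3 : |H v.1 N s - H v.1 N t| ≤ 2 ^ (v.1 + N) * (1 / 2 ^ n) :=
        (H_lip (i := v.1) hN s t).trans (mul_le_mul_of_nonneg_left h2 (by positivity))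
      calc (‖c‖ ^ n)⁻¹ * _ ≤ (‖c‖ ^ n)⁻¹ * (2 ^ (v.1 + N) * (1 / 2 ^ n)) :=
            mul_le_mul_of_nonneg_left h3 (by positivity)
        _ = 2 ^ (v.1 + N) * ((2 * ‖c‖) ^ n)⁻¹ := by
          rw [mul_pow, mul_inv]; ring
    · have e1 : un c v N n (j + 1, y + 1) = 0 := by simp [un]
      have e2 : un c v N n (j + 1, y) = 0 := by simp [un]
      rw [e1, e2, sub_zero, norm_zero]; exact hpos

/-- The error function. -/
noncomputable def kn (v : ℕ × ℕ) (N n : ℕ) (w : ℕ × ℕ) : ℂ :=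
  (if w.1 ≤ n then ((H v.1 N |val w - val v| : ℝ) : ℂ) else 0) -
    (Pi.single v (1 : ℂ) : ℕ × ℕ → ℂ) w

lemma kn_self {v : ℕ × ℕ} {N n : ℕ} (hN : 0 < N) (hn : v.1 ≤ n) : kn v N n v = 0 := by
  unfold kn
  rw [if_pos hn, sub_self, abs_zero, H_zero hN, Pi.single_eq_same]
  simp

lemma kn_spine {v : ℕ × ℕ} {N n : ℕ} (hN : 0 < N) (hn : v.1 ≤ n) (j : ℕ) :
    kn v N n (j, 0) = 0 := by
  by_cases h : (j, 0) = v
  · rw [h]; exact kn_self hN hn
  · unfold kn
    rw [Pi.single_eq_of_ne h, H_eq_zero (spine_sep h)]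
    simp

lemma kn_low {v : ℕ × ℕ} {N n : ℕ} (hN : 0 < N) (hn : v.1 ≤ n) {w : ℕ × ℕ} (hw : w.1 ≤ v.1) :
    kn v N n w = 0 := by
  by_cases h : w = v
  · rw [h]; exact kn_self hN hn
  · unfold kn
    have h1 := val_sep h le_rfl hw
    have hhalf : (1 : ℝ) / 2 ^ (v.1 + 1) ≤ 1 / 2 ^ v.1 := by
      apply one_div_le_one_div_of_le (by positivity)
      exact pow_le_pow_right₀ (by norm_num) (Nat.le_succ _)
    rw [Pi.single_eq_of_ne h, H_eq_zero (hhalf.trans h1)]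
    simp

lemma norm_D_kn {v : ℕ × ℕ} {N n : ℕ} (hN : 0 < N) (hn : v.1 ≤ n) (w : ℕ × ℕ) :
    ‖D (kn v N n) w‖ ≤ 4 / N := by
  have hN' : (0 : ℝ) < N := by exact_mod_cast hN
  have hpos : (0 : ℝ) ≤ 4 / N := by positivity
  obtain ⟨j, y⟩ := w
  rcases y with _ | y
  · rcases j with _ | j
    · rw [D_root, kn_spine hN hn, norm_zero]; exact hpos
    · rw [D_spine, kn_spine hN hn, kn_spine hN hn, sub_zero, norm_zero]; exact hpos
  · rw [D_tooth]
    by_cases hj : j ≤ v.1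
    · rw [kn_low hN hn (w := (j, y + 1)) hj, kn_low hN hn (w := (j, y)) hj, sub_zero, norm_zero]
      exact hpos
    · push Not at hj
      have hne1 : (j, y + 1) ≠ v := by rintro rfl; exact lt_irrefl _ hj
      have hne2 : (j, y) ≠ v := by rintro rfl; exact lt_irrefl _ hj
      unfold kn
      rw [Pi.single_eq_of_ne hne1, Pi.single_eq_of_ne hne2, sub_zero, sub_zero]
      by_cases hjn : j ≤ n
      · rw [if_pos hjn, if_pos hjn, ← Complex.ofReal_sub, Complex.norm_real, Real.norm_eq_abs]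
        refine H_diff hN (δ := 1 / 2 ^ j) (by positivity)
          (val_sep hne1 hj.le le_rfl) (val_sep hne2 hj.le le_rfl) ?_
        refine (abs_abs_sub_abs_le _ _).trans ?_
        have e : val (j, y + 1) - val v - (val (j, y) - val v) = 2 * (1 / 2 ^ j) := by
          rw [← tooth_step (by omega : 0 < j) y]; ring
        rw [e, abs_of_pos (by positivity)]
      · rw [if_neg hjn, if_neg hjn, sub_zero, norm_zero]; exact hpos

lemma chiY_mem_P {c : ℂ} (hc : 1 / 2 < ‖c‖) (v : ℕ × ℕ) : chiY v ∈ P c := by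
  have hc0 : c ≠ 0 := by
    rintro rfl
    rw [norm_zero] at hc
    norm_num at hc
  intro ε hε
  obtain ⟨N, hNlt⟩ := exists_nat_gt (4 / ε)
  have hN : 0 < N := by
    have : (0 : ℝ) < N := lt_trans (by positivity) hNlt
    exact_mod_cast this
  have hN' : (0 : ℝ) < N := by exact_mod_cast hN
  have hNε : 4 / (N : ℝ) < ε := by
    rw [div_lt_iff₀ hε] at hNlt
    rw [div_lt_iff₀ hN']
    linarith
  have hlim : Tendsto (fun n : ℕ => (2 : ℝ) ^ (v.1 + N) * ((2 * ‖c‖) ^ n)⁻¹) atTop (𝓝 0) := by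
    have h1 : Tendsto (fun n : ℕ => (2 * ‖c‖) ^ n) atTop atTop :=
      tendsto_pow_atTop_atTop_of_one_lt (by linarith)
    have h2 := (tendsto_inv_atTop_zero.comp h1).const_mul ((2 : ℝ) ^ (v.1 + N))
    simpa using h2
  filter_upwards [hlim.eventually (gt_mem_nhds hε), eventually_ge_atTop (v.1 + 1)] with n hn1 hn2
  obtain ⟨M, hM⟩ := un_support (c := c) v N n
  refine ⟨mkY (D (un c v N n)) (D_tendsto_of_support _ M hM), ?_, ?_⟩
  · refine lt_of_le_of_lt (norm_le_of _ ?_ fun w => ?_) hn1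
    · positivity
    · exact norm_D_un hN hn2 w
  · refine lt_of_le_of_lt (norm_le_of _ (M := 4 / N) (by positivity) fun w => ?_) hNε
    rw [ZeroAtInftyContinuousMap.sub_apply, B_pow_eq c n _ (un c v N n) rfl]
    have hk : D (fun w => c ^ n * un c v N n (phi^[n] w)) w - chiY v w = D (kn v N n) w := by
      have e : (fun w => c ^ n * un c v N n (phi^[n] w)) - (Pi.single v (1 : ℂ) : ℕ × ℕ → ℂ) =
          kn v N n := by
        funext x
        rw [Pi.sub_apply, un_image hc0]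
        rfl
      rw [← e, D_sub]
      rfl
    rw [hk]
    exact norm_D_kn hN (by omega) w

theorem exists_orbit {c : ℂ} (hc : 1 / 2 < ‖c‖) (hc1 : ‖c‖ < 1) :
    ∃ F : C₀(ℕ × ℕ, ℂ), ∀ G : C₀(ℕ × ℕ, ℂ), ∀ ε : ℝ, 0 < ε → ∃ n : ℕ, ‖(B c ^ n) F - G‖ < ε :=
  exists_dense_orbit (B c) (dense_tendsto_zero hc1) (dense_P (chiY_mem_P hc))

/-! ### Translation to the little Lipschitz space -/

lemma mem_littleLip_iff (f : ℕ × ℕ → ℂ) :
    f ∈ littleLip comb (0, 0) ↔ Tendsto (D f) cofinite (𝓝 0) := by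
  rw [tendsto_cofinite_iff]
  refine forall₂_congr fun ε _ => ?_
  have h1 : {v : ℕ × ℕ | ∃ w, IsParent comb (0, 0) w v ∧ ε ≤ ‖f v - f w‖} ⊆
      {v | ε ≤ ‖D f v‖} := by
    rintro v ⟨w, hw, hε⟩
    rw [isParent_iff] at hw
    obtain ⟨hv, rfl⟩ := hw
    show ε ≤ ‖D f v‖
    rwa [D_of_ne f hv]
  have h2 : {v | ε ≤ ‖D f v‖} ⊆
      {v : ℕ × ℕ | ∃ w, IsParent comb (0, 0) w v ∧ ε ≤ ‖f v - f w‖} ∪ {(0, 0)} := by
    intro v hv
    by_cases h0 : v = (0, 0)
    · exact Or.inr h0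
    · left
      refine ⟨par v, isParent_iff.2 ⟨h0, rfl⟩, ?_⟩
      have hv' : ε ≤ ‖D f v‖ := hv
      rwa [D_of_ne f h0] at hv'
  constructor
  · intro h
    exact (h.union (Set.finite_singleton _)).subset h2
  · intro h
    exact h.subset h1

instance : Nonempty {p : (ℕ × ℕ) × (ℕ × ℕ) // IsParent comb (0, 0) p.1 p.2} :=
  ⟨⟨((0, 0), (0, 1)), isParent_iff.2 ⟨by simp, by simp⟩⟩⟩

lemma lipNorm_le {f : ℕ × ℕ → ℂ} {M : ℝ} (h : ∀ v, ‖D f v‖ ≤ M) :
    lipNorm comb (0, 0) f ≤ M := by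
  unfold lipNorm
  refine max_le ?_ (ciSup_le ?_)
  · have := h (0, 0)
    rwa [D_root] at this
  · rintro ⟨⟨w, v⟩, hp⟩
    have hp' := isParent_iff.1 hp
    obtain ⟨hv, hw⟩ := hp'
    simp only at hw hv ⊢
    rw [hw, ← D_of_ne f hv]
    exact h v

lemma norm_D_le_lipNorm {f : ℕ × ℕ → ℂ} (hf : f ∈ littleLip comb (0, 0)) (v : ℕ × ℕ) :
    ‖D f v‖ ≤ lipNorm comb (0, 0) f := by
  unfold lipNorm
  by_cases hv : v = (0, 0)
  · subst hv
    rw [D_root]
    exact le_max_left _ _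
  · rw [D_of_ne f hv]
    refine le_trans ?_ (le_max_right _ _)
    have hbdd : BddAbove (Set.range fun p : {p : (ℕ × ℕ) × (ℕ × ℕ) // IsParent comb (0, 0) p.1 p.2} =>
        ‖f p.1.2 - f p.1.1‖) := by
      refine ⟨‖mkY (D f) ((mem_littleLip_iff f).1 hf)‖, ?_⟩
      rintro _ ⟨⟨⟨w, v⟩, hp⟩, rfl⟩
      obtain ⟨hv, hw⟩ := isParent_iff.1 hp
      simp only at hw hv ⊢
      rw [hw, ← D_of_ne f hv]
      exact norm_apply_le (mkY (D f) ((mem_littleLip_iff f).1 hf)) v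
    exact le_ciSup hbdd ⟨(par v, v), isParent_iff.2 ⟨hv, rfl⟩⟩

lemma isCompositionOperator_phi : IsCompositionOperator comb (0, 0) phi := by
  have hD : ∀ f : ℕ × ℕ → ℂ, D (f ∘ phi) = Bf 1 (D f) := by
    intro f
    rw [← D_comp, one_smul]
  refine ⟨fun f hf => ?_, 2, fun f hf => ?_⟩
  · rw [mem_littleLip_iff] at hf ⊢
    rw [hD]
    exact Bf_tendsto 1 _ hf
  · refine lipNorm_le fun v => ?_
    rw [hD]
    have := Bf_norm_le 1 (D f) (norm_D_le_lipNorm hf) v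
    simpa using this

theorem isHypercyclic_phi {c : ℂ} (hc : 1 / 2 < ‖c‖) (hc1 : ‖c‖ < 1) :
    IsHypercyclic comb (0, 0) (fun f => c • (f ∘ phi)) := by
  obtain ⟨F, hF⟩ := exists_orbit hc hc1
  refine ⟨S F, ?_, ?_⟩
  · rw [mem_littleLip_iff, D_S]
    exact Y_tendsto F
  · intro g hg ε hε
    obtain ⟨n, hn⟩ := hF (mkY (D g) ((mem_littleLip_iff g).1 hg)) ε hε
    refine ⟨n, lt_of_le_of_lt (lipNorm_le fun v => ?_) hn⟩
    have e : D ((fun f : ℕ × ℕ → ℂ => c • (f ∘ phi))^[n] (S F) - g) v =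
        ((B c ^ n) F - mkY (D g) ((mem_littleLip_iff g).1 hg) : C₀(ℕ × ℕ, ℂ)) v := by
      rw [D_sub, ZeroAtInftyContinuousMap.sub_apply, mkY_apply, B_pow_apply, Pi.sub_apply]
      congr 1
      have := D_A_iterate c n (S F)
      rw [D_S] at this
      exact congrFun this v
    rw [e]
    exact norm_apply_le _ v

end Pool.Agent.H70.LittleLip
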